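import Pool.Agent.MWGI.StmtsE

/-!
# MWGI, row TYP: the types of a heavy and of a light letter of block `i`
-/

set_option autoImplicit false

namespace Pool.Agent.MWGI.H25

open Pool.Agent.Helper14_MV Pool.Agent.Helper2_MV Pool.Agent.MVO Pool.Agent.MWL Pool.Agent.MWS
  Pool.Agent.MWH

/-- the entry of a light letter of degree two at an occupied block -/
theorem ll2_at {k : ℕ} {a : ℕ → ℕ} {u v i : ℕ} (h : LL2 k a u v) (hi : i ≤ k) (ha : a i ≠ 0) :
    a i = 1 ∧ ∃ p ≤ k, p ≠ i ∧ ∀ j ≤ k, a j = if j = i ∨ j = p then 1 else 0 := by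
  have huk : u ≤ k := le_trans h.uv.le h.vk
  have huv : u ≠ v := h.uv.ne
  by_cases h1 : i = u
  · subst h1
    refine ⟨h.au, v, h.vk, huv.symm, fun j hj => ?_⟩
    by_cases h2 : j = i
    · rw [if_pos (Or.inl h2), h2]
      exact h.au
    · by_cases h3 : j = v
      · rw [if_pos (Or.inr h3), h3]
        exact h.av
      · rw [if_neg (by rintro (h4 | h4) <;> contradiction)]
        exact h.az j hj h2 h3
  · by_cases h2 : i = v
    · subst h2
      refine ⟨h.av, u, huk, huv, fun j hj => ?_⟩
      by_cases h2 : j = i
      · rw [if_pos (Or.inl h2), h2]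
        exact h.av
      · by_cases h3 : j = u
        · rw [if_pos (Or.inr h3), h3]
          exact h.au
        · rw [if_neg (by rintro (h4 | h4) <;> contradiction)]
          exact h.az j hj h3 h2
    · exact absurd (h.az i hi h1 h2) ha

theorem typ : TypStmt := by
  intro n k B B' hF i hi
  constructor
  · intro x hx
    have hm : x ∈ B i := List.count_pos_iff.1 (by omega)
    have hN : NS k x := hF.ok.ok i hi x hm
    refine ⟨hN, ?_⟩
    rcases hF.gi x hN with h | ⟨u, v, h⟩
    · exact h
    · exfalso
      have h1 := (ll2_at h hi (show (B i).count x ≠ 0 by omega)).1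
      change (B i).count x = 1 at h1
      omega
  · intro a ha
    have hm : a ∈ B i := List.count_pos_iff.1 (by omega)
    have hN : NS k a := hF.ok.ok i hi a hm
    refine ⟨hN, ?_⟩
    rcases hF.gi a hN with h | ⟨u, v, h⟩
    · exfalso
      rcases h i hi with h1 | h1
      · change (B i).count a = 0 at h1
        omega
      · change 2 ≤ (B i).count a at h1
        omega
    · exact (ll2_at h hi (show (B i).count a ≠ 0 by omega)).2

end Pool.Agent.MWGI.H25
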